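import Pool.Agent.H39.Newt.Base

/-!
# Project NEWTON (MP_432c1b_ag): statements of the modules

Module XXX proves `SXxx`, with the statements of other modules as hypotheses.
-/

set_option autoImplicit false

namespace Pool.Newt

open MvPolynomial Pool.Agent.H39.MonoR Pool.Agent.H75.Mono

/-! ### b-side: the recurrence -/

/-- WEY: differential operators on monomials. Closed under `+`, `∘`; `desc γ' * (desc γ)(X + γ')` is
divisible by `desc (γ + γ')`. -/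
def SWey : Prop :=
  ∀ (σ : Type) [Fintype σ] (k : Type) [Field k] (T : Module.End k (MvPolynomial σ k)),
    IsDiffOp k T → ∃ (Γ : Finset (σ → ℤ)) (r : (σ → ℤ) → MvPolynomial σ k), ∀ v : σ → ℕ,
      T (xsh k v 0) = ∑ γ ∈ Γ, (eval (fun l => (v l : k)) (desc k γ * r γ)) • xsh k v γ

/-- COF: comparison of coefficients in the functional equation -/
def SCof : Prop :=
  ∀ (σ I : Type) [Fintype σ] [Fintype I] (k : Type) [Field k] [CharZero k] (a : I → σ → ℕ)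
    (c : I → k) (b : Polynomial k), IsBS k (poly a c) b →
    ∃ (Γ : Finset (σ → ℤ)) (r : (σ → ℤ) → MvPolynomial (Option σ) k), CofId a c b Γ r

/-- FUN: a functional on finitely many elements of a field over a domain -/
def SFun : Prop :=
  ∀ (R : Type) [CommRing R] (k : Type) [Field k] [Algebra R k],
    Function.Injective (algebraMap R k) → ∀ Y : Finset k, (1 : k) ∈ Y →
    ∃ μ : k → R, μ 1 ≠ 0 ∧ ∀ x : k → R, ∑ y ∈ Y, algebraMap R k (x y) * y = 0 →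
      ∑ y ∈ Y, x y * μ y = 0

/-- RCG: the recurrence in the group ring of `Ker a` -/
def SRcg : Prop :=
  ∀ (σ I : Type) [Fintype σ] [Fintype I] (k : Type) [Field k] [CharZero k] (a : I → σ → ℕ)
    (c : I → k), (∀ i, c i ≠ 0) → Genk a c → ∀ (b : Polynomial k) (α : ℚ) (K : ℕ),
    b.eval (α : k) ≠ 0 → (∃ (Γ : Finset (σ → ℤ)) (r : (σ → ℤ) → MvPolynomial (Option σ) k),
      CofId a c b Γ r) → Rcg a α K

/-- PHI: a functional which does not vanish on finitely many vectors -/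
def SPhi : Prop :=
  ∀ (I : Type) [Fintype I] (s : Finset I) (E : Finset (I → ℤ)),
    (∀ κ ∈ E, ∃ i, i ∉ s ∧ κ i ≠ 0) → ∃ φ : I → ℕ, (∀ i ∈ s, φ i = 0) ∧
      (∀ i, i ∉ s → 0 < φ i) ∧ ∀ κ ∈ E, ∑ i, (φ i : ℤ) * κ i ≠ 0

/-- REC: the scalar recurrence -/
def SRec : Prop :=
  ∀ (σ I : Type) [Fintype σ] [Fintype I] (a : I → σ → ℕ) (s : Finset I) (α : ℚ) (K : ℕ),
    (∀ κ ∈ Ker a, (∀ i, i ∉ s → κ i = 0) → κ = 0) → Rcg a α K → Nonempty (Rec a s α K)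

/-- POL: the polynomial form of the recurrence -/
def SPol : Prop :=
  ∀ (σ I : Type) [Fintype σ] [Fintype I] (a : I → σ → ℕ) (s : Finset I) (α : ℚ) (K : ℕ)
    (R : Rec a s α K), ∃ J0 : ℕ, ∀ J, J0 ≤ J → R.Poly J

/-- LOC: the lowest homogeneous component at `t0` -/
def SLoc : Prop :=
  ∀ (σ I : Type) [Fintype σ] [Fintype I] (a : I → σ → ℕ) (s : Finset I) (α : ℚ) (K : ℕ)
    (R : Rec a s α K) (J : ℕ), R.Poly J → ∀ (t0 : I → ℚ), ∑ i, t0 i = α →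
    ∀ (W : Finset σ), (∀ l ∈ W, ∑ i, (a i l : ℚ) * t0 i = -1) →
    (∀ (i : I) (m : ℕ), t0 i = -m → m ≤ J) → (Zs t0 0).card < K →
    (∏ i ∈ Zs t0 0, X i : MvPolynomial I ℚ) ∈ Ideal.span
      ({g | ∃ κ ∈ R.Dk, κ ≠ 0 ∧ R.r κ ≠ 0 ∧ g = ∏ i ∈ Zs t0 κ, X i} ∪
        {g | ∃ δ ∈ R.Dd, g = (∏ i ∈ Zs t0 δ, X i) *
          ∏ l ∈ W.filter (fun l => 0 < ∑ i, δ i * (a i l : ℤ)), lf (fun i => (a i l : ℤ))})

/-! ### b-side: the lemma on products of linear forms -/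

/-- NIL: logarithms of unipotent elements -/
def SNil : Prop :=
  ∀ (I : Type) [Fintype I] (A : Type) [CommRing A] [Algebra ℚ A] (x : I → Aˣ),
    (∀ i, IsNilpotent ((x i : A) - 1)) → ∃ L : I → A, ∀ β : I → ℤ, ∃ v : Aˣ,
      ∑ i, (β i : A) * L i = v * (((∏ i, x i ^ β i : Aˣ) : A) - 1)

/-- KRU: Krull's intersection theorem -/
def SKru : Prop :=
  ∀ (R : Type) [CommRing R] [IsNoetherianRing R] (J m : Ideal R) (a : R),
    (∀ N : ℕ, a ∈ J ⊔ m ^ N) → ∃ u : R, u - 1 ∈ m ∧ u * a ∈ J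

/-- GRP: products of `x^β - 1` in a group ring, by counting lattice points -/
def SGrp : Prop :=
  ∀ (A : Type) [AddCommGroup A] (D : Type) [Fintype D] [DecidableEq D] (β : D → A) (B : Finset D),
    (∀ ν : D → ℕ, ∑ d, ν d • β d = 0 → ν = 0) →
    (∀ ν : D → ℤ, (∀ d, d ∉ B → ν d = 0) → ∑ d, ν d • β d = 0 → ν = 0) →
    ∀ hc : D → ℕ, (∀ d ∈ B, 0 < hc d) → ∀ 𝒢 : Set (Finset D),
    (∀ S ∈ 𝒢, ∃ ψ : A →+ ℤ, 0 < ψ (∑ d ∈ B, hc d • β d) ∧ ∀ d, d ∉ S → ψ (β d) ≤ 0) →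
    ∀ ε : AddMonoidAlgebra ℚ A →ₐ[ℚ] ℚ, (∀ m, ε (AddMonoidAlgebra.single m 1) = 1) →
    ∀ u : AddMonoidAlgebra ℚ A, ε u ≠ 0 →
      u * ∏ d ∈ Bᶜ, (AddMonoidAlgebra.single (β d) 1 - 1) ∉
        Ideal.span {g | ∃ S ∈ 𝒢, g = ∏ d ∈ S, (AddMonoidAlgebra.single (β d) 1 - 1)}

/-- LEM: products of linear forms (from NIL, KRU, GRP) -/
def SLem : Prop :=
  ∀ (I D : Type) [Fintype I] [Fintype D] [DecidableEq D] (β : D → I → ℤ) (B : Finset D),
    (∀ ν : D → ℕ, (∀ i, ∑ d, (ν d : ℤ) * β d i = 0) → ν = 0) →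
    (∀ ν : D → ℤ, (∀ d, d ∉ B → ν d = 0) → (∀ i, ∑ d, ν d * β d i = 0) → ν = 0) →
    ∀ hc : D → ℕ, (∀ d ∈ B, 0 < hc d) → ∀ 𝒢 : Set (Finset D),
    (∀ S ∈ 𝒢, ∃ ψ : I → ℤ, 0 < ∑ i, ψ i * ∑ d ∈ B, (hc d : ℤ) * β d i ∧
      ∀ d, d ∉ S → ∑ i, ψ i * β d i ≤ 0) →
    (∏ d ∈ Bᶜ, lf (β d) : MvPolynomial I ℚ) ∉
      Ideal.span {g | ∃ S ∈ 𝒢, g = ∏ d ∈ S, lf (β d)}

/-- ROO: good weights give roots of the Bernstein-Sato polynomial (from COF, RCG, REC, POL, LOC,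
LEM) -/
def SRoo : Prop :=
  ∀ (σ I : Type) [Fintype σ] [Fintype I] (k : Type) [Field k] [CharZero k] (a : I → σ → ℕ)
    (c : I → k), (∀ i, c i ≠ 0) → Genk a c → ∀ w : σ → ℕ, Good a w → 0 < Nw a w →
    IsRoot k (poly a c) (-((∑ l, w l : ℕ) : ℚ) / (Nw a w : ℚ))

/-! ### zeta side: combinatorics -/

/-- EXT: every weight is a nonnegative rational combination of rigid weights and of unit vectors of
variables which do not occur on its face -/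
def SExt : Prop :=
  ∀ (σ I : Type) [Fintype σ] [Fintype I] [Nonempty I] (a : I → σ → ℕ) (u : σ → ℕ),
    ∃ (D : ℕ) (r : ℕ) (w : Fin r → σ → ℕ) (m : Fin r → ℕ) (p : σ → ℕ), 0 < D ∧
      (∀ s, Rigid a (w s) ∧ 0 < Nw a (w s) ∧ face a u ⊆ face a (w s)) ∧
      (∀ j, p j ≠ 0 → ∀ i ∈ face a u, a i j = 0) ∧
      ∀ j, D * u j = (∑ s, m s * w s j) + p j

/-- RAY: up to scaling there are finitely many rigid weights with `N(w) > 0` -/
def SRay : Prop :=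
  ∀ (σ I : Type) [Fintype σ] [Fintype I] [Nonempty I] (a : I → σ → ℕ),
    ∃ R : Finset (σ → ℕ), (∀ w ∈ R, Rigid a w ∧ 0 < Nw a w) ∧
      ∀ w, Rigid a w → 0 < Nw a w → ∃ w' ∈ R, face a w' = face a w ∧
        ∃ p q : ℕ, 0 < p ∧ 0 < q ∧ ∀ j, p * w j = q * w' j

/-- FGE: the weights with a given face are finitely generated over rigid weights and free
directions (from EXT, RAY and Dickson's lemma) -/
def SFge : Prop :=
  ∀ (σ I : Type) [Fintype σ] [Fintype I] [Nonempty I] (a : I → σ → ℕ) (u₀ : σ → ℕ),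
    ∃ (U : Finset (σ → ℕ)) (r : ℕ) (w : Fin r → σ → ℕ),
      (∀ s, Rigid a (w s) ∧ 0 < Nw a (w s) ∧ face a u₀ ⊆ face a (w s)) ∧
      (∀ u ∈ U, face a u = face a u₀) ∧
      ∀ x, face a x = face a u₀ → ∃ u ∈ U, ∃ (m : Fin r → ℕ) (p : σ → ℕ),
        (∀ j, p j ≠ 0 → ∀ i ∈ face a u₀, a i j = 0) ∧
        ∀ j, x j = u j + (∑ s, m s * w s j) + p j

/-- DWN: lower sets of `ℕ^V` are finite disjoint unions of boxes -/
def SDwn : Prop :=
  ∀ (V : Type) [Fintype V] (D : Set (V → ℕ)), IsLowerSet D →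
    ∃ (n : ℕ) (c : Fin n → V → ℕ) (S : Fin n → Finset V), ∀ x : V → ℕ,
      (x ∈ D → ∃! i, (∀ v, v ∉ S i → x v = c i v) ∧ ∀ v ∈ S i, c i v ≤ x v) ∧
      ((∃ i, (∀ v, v ∉ S i → x v = c i v) ∧ ∀ v ∈ S i, c i v ≤ x v) → x ∈ D)

/-- STD: unique representations (from DWN, with the lexicographically smallest representations) -/
def SStd : Prop :=
  ∀ (σ V : Type) [Fintype σ] [Fintype V] (U : Finset (σ → ℕ)) (vec : V → σ → ℕ),
    ∃ (n : ℕ) (u : Fin n → σ → ℕ) (S : Fin n → Finset V),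
      (∀ β, ∃ u0 ∈ U, ∃ m : V → ℕ, ∀ j, u β j = u0 j + ∑ v, m v * vec v j) ∧
      ∀ x : σ → ℕ, (∃ u0 ∈ U, ∃ m : V → ℕ, ∀ j, x j = u0 j + ∑ v, m v * vec v j) →
        ∃! y : Fin n × (V → ℕ), (∀ v, v ∉ S y.1 → y.2 v = 0) ∧
          ∀ j, x j = u y.1 j + ∑ v, y.2 v * vec v j

/-- STA: the decomposition of `ℕ^σ` (from FGE, STD) -/
def SSta : Prop :=
  ∀ (σ I : Type) [Fintype σ] [Fintype I] [Nonempty I] (a : I → σ → ℕ),
    ∃ (nB : ℕ) (b : Fin nB → NBox σ), Decomp a b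

/-! ### zeta side: arcs -/

/-- DEC: the decomposition of the arcs -/
def SDec : Prop :=
  ∀ (k : Type) [Field k] [Algebra k ℂ] (σ I : Type) [Fintype σ] [Fintype I] [Nonempty I]
    (a : I → σ → ℕ) (c : I → k) (nB : ℕ) (b : Fin nB → NBox σ), Decomp a b →
    ∃ C : ℕ, ∀ d M : ℕ, C * (d + 1) ≤ M →
      (∀ β m, Nw a ((b β).pt m) ≤ d → ∀ j, (b β).pt m j + d < M) ∧
      (∀ φ : σ × Fin M → ℂ, Hit (poly a c) d φ 1 →
        ∃ β m, Nw a ((b β).pt m) ≤ d ∧ φ ∈ Cyl ((b β).pt m) (b β).F) ∧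
      ∀ (φ : σ × Fin M → ℂ) (y y' : Σ β : Fin nB, (Fin (b β).r → ℕ)),
        Nw a ((b y.1).pt y.2) ≤ d → Nw a ((b y'.1).pt y'.2) ≤ d →
        φ ∈ Cyl ((b y.1).pt y.2) (b y.1).F → φ ∈ Cyl ((b y'.1).pt y'.2) (b y'.1).F → y = y'

/-- ARC: the leading term of `f(x(t))` -/
def SArc : Prop :=
  ∀ (k : Type) [Field k] [Algebra k ℂ] (σ I : Type) [Fintype σ] [Fintype I] [Nonempty I]
    (a : I → σ → ℕ) (c : I → k) (u : σ → ℕ) (x : σ → PowerSeries ℂ),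
    (∀ j l, l < u j → PowerSeries.coeff l (x j) = 0) →
    (∀ l, l < Nw a u → PowerSeries.coeff l (aeval x (poly a c)) = 0) ∧
      PowerSeries.coeff (Nw a u) (aeval x (poly a c)) =
        aeval (fun j => PowerSeries.coeff (u j) (x j)) (fpoly a c u)

open Classical in
/-- VAR: variation of one component -/
def SVar : Prop :=
  ∀ (k : Type) [Field k] [Algebra k ℂ] (σ I : Type) [Fintype σ] [Fintype I] [Nonempty I]
    (a : I → σ → ℕ) (c : I → k) (u : σ → ℕ) (x : σ → PowerSeries ℂ),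
    (∀ j l, l < u j → PowerSeries.coeff l (x j) = 0) →
    ∀ (j₀ : σ) (q : ℕ), 0 < q → ∀ η : PowerSeries ℂ,
    (∀ l, l < Nw a u + q → PowerSeries.coeff l (aeval (Function.update x j₀
      (x j₀ + PowerSeries.X ^ (u j₀ + q) * η)) (poly a c)) =
        PowerSeries.coeff l (aeval x (poly a c))) ∧
      PowerSeries.coeff (Nw a u + q) (aeval (Function.update x j₀
        (x j₀ + PowerSeries.X ^ (u j₀ + q) * η)) (poly a c)) =
        PowerSeries.coeff (Nw a u + q) (aeval x (poly a c)) + PowerSeries.constantCoeff η *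
          aeval (fun j => PowerSeries.coeff (u j) (x j)) (pderiv j₀ (fpoly a c u))

open Classical in
/-- HEN: solving `f(x(t)) = v t^d mod t^(d+1)` for one component (from ARC, VAR) -/
def SHen : Prop :=
  ∀ (k : Type) [Field k] [Algebra k ℂ] (σ I : Type) [Fintype σ] [Fintype I] [Nonempty I]
    (a : I → σ → ℕ) (c : I → k) (u : σ → ℕ) (x : σ → PowerSeries ℂ),
    (∀ j l, l < u j → PowerSeries.coeff l (x j) = 0) →
    aeval (fun j => PowerSeries.coeff (u j) (x j)) (fpoly a c u) = 0 →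
    ∀ j₀ : σ, aeval (fun j => PowerSeries.coeff (u j) (x j)) (pderiv j₀ (fpoly a c u)) ≠ 0 →
    ∀ (d : ℕ) (v : ℂ), Nw a u < d → ∃! η : Fin (d - Nw a u) → ℂ, ∀ l, l ≤ d →
      PowerSeries.coeff l (aeval (Function.update x j₀ (x j₀ + PowerSeries.X ^ (u j₀ + 1) *
        ∑ s, PowerSeries.C (η s) * PowerSeries.X ^ (s : ℕ))) (poly a c)) = if l = d then v else 0

/-- CLA: the class of the arcs in a cylinder with `f(φ) = t^d`, `d = N(u)` (from ARC) -/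
def SCla : Prop :=
  ∀ (k : Type) [Field k] [Algebra k ℂ] (σ I : Type) [Fintype σ] [Fintype I] [Nonempty I]
    (a : I → σ → ℕ) (c : I → k) (u : σ → ℕ) (F : Finset σ) (d M : ℕ), Nw a u = d →
    (∀ j, u j < M) → d < M →
    mo k {φ : σ × Fin M → ℂ | φ ∈ Cyl u F ∧ Hit (poly a c) d φ 1} =
      ↑(Lu k ^ (((Fintype.card σ * (M - 1) : ℕ) : ℤ) - ((∑ j, u j : ℕ) : ℤ))) *
        mo k {z : σ → ℂ | (∀ j, j ∉ F → z j ≠ 0) ∧ aeval z (fpoly a c u) = 1}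

/-- CLB: the class of the arcs in a cylinder with `f(φ) = t^d`, `d > N(u)` (from ARC, HEN) -/
def SClb : Prop :=
  ∀ (k : Type) [Field k] [Algebra k ℂ] (σ I : Type) [Fintype σ] [Fintype I] [Nonempty I]
    (a : I → σ → ℕ) (c : I → k) (u : σ → ℕ) (F : Finset σ) (d M : ℕ), Nw a u < d →
    (∀ j, u j + d < M) → d < M →
    (∀ z : σ → ℂ, (∀ j, j ∉ F → z j ≠ 0) → aeval z (fpoly a c u) = 0 →
      ∃ l, aeval z (pderiv l (fpoly a c u)) ≠ 0) →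
    mo k {φ : σ × Fin M → ℂ | φ ∈ Cyl u F ∧ Hit (poly a c) d φ 1} *
        ↑(Lu k ^ ((d - Nw a u : ℕ) : ℤ)) =
      ↑(Lu k ^ (((Fintype.card σ * (M - 1) : ℕ) : ℤ) - ((∑ j, u j : ℕ) : ℤ))) *
        mo k {z : σ → ℂ | (∀ j, j ∉ F → z j ≠ 0) ∧ aeval z (fpoly a c u) = 0}

/-- GFN: the generating function of a box -/
def SGfn : Prop :=
  ∀ (R : Type 1) [CommRing R] (x : Rˣ) (r : ℕ) (n N : Fin r → ℕ) (n0 N0 : ℕ), (∀ s, 0 < N s) →
    (∏ s, den' x (-(n s : ℤ), N s)) * PowerSeries.mk (fun d =>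
      ∑ m ∈ (Fintype.piFinset fun _ : Fin r => Finset.range (d + 1)).filter
        (fun m => N0 + ∑ s, m s * N s = d), (↑(x ^ (-((n0 + ∑ s, m s * n s : ℕ) : ℤ))) : R)) =
      PowerSeries.C (↑(x ^ (-(n0 : ℤ))) : R) * PowerSeries.X ^ N0

open Classical in
/-- ZET: the motivic zeta function (from STA, DEC, CLA, CLB, GFN) -/
def SZet : Prop :=
  ∀ (k : Type) [Field k] [Algebra k ℂ] (σ I : Type) [Fintype σ] [Fintype I] [Nonempty I]
    (a : I → σ → ℕ) (c : I → k), Ndg a c →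
    ∃ R : Finset (σ → ℕ), (∀ w ∈ R, Rigid a w ∧ 0 < Nw a w) ∧
      Zmot k (poly a c) ∈ RS k ({((-1 : ℤ), (1 : ℕ))} ∪
        {p | ∃ w ∈ R, p = (-((∑ j, w j : ℕ) : ℤ), Nw a w)})

/-- NDG: generic polynomials are nondegenerate -/
def SNdg : Prop :=
  ∀ (k : Type) [Field k] [Algebra k ℂ] (σ I : Type) [Fintype σ] [Fintype I] [Nonempty I]
    (a : I → σ → ℕ) (c : I → k), (∀ i, c i ≠ 0) → Gen a c → Ndg a c

end Pool.Newt
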