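import Pool.Agent.H39.Newt.Defs

/-! # Project NEWTON: basic lemmas on weights and faces -/

set_option autoImplicit false

namespace Pool.Newt

open MvPolynomial

section Weights

variable {σ I : Type} [Fintype σ] [Fintype I]

omit [Fintype I] in
theorem dot_add (u v x : σ → ℕ) : dot (u + v) x = dot u x + dot v x := by
  simp [dot, add_mul, Finset.sum_add_distrib]

omit [Fintype I] in
theorem dot_smul (m : ℕ) (v x : σ → ℕ) : dot (fun j => m * v j) x = m * dot v x := by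
  simp [dot, Finset.mul_sum, mul_assoc]

omit [Fintype I] in
theorem dot_sum {S : Type} [Fintype S] (m : S → ℕ) (w : S → σ → ℕ) (x : σ → ℕ) :
    dot (fun j => ∑ s, m s * w s j) x = ∑ s, m s * dot (w s) x := by
  simp only [dot, Finset.sum_mul, Finset.mul_sum]
  rw [Finset.sum_comm]
  refine Finset.sum_congr rfl fun s _ => Finset.sum_congr rfl fun j _ => by ring

theorem exists_mem_face [Nonempty I] (a : I → σ → ℕ) (w : σ → ℕ) : ∃ i, i ∈ face a w := by
  obtain ⟨i, -, hi⟩ := Finset.exists_min_image (Finset.univ : Finset I) (fun i => dot w (a i))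
    Finset.univ_nonempty
  exact ⟨i, fun i' => hi i' (Finset.mem_univ _)⟩

theorem Nw_eq {a : I → σ → ℕ} {w : σ → ℕ} {i : I} (hi : i ∈ face a w) :
    Nw a w = dot w (a i) := by
  apply le_antisymm
  · exact Nat.sInf_le ⟨i, rfl⟩
  · refine le_csInf ⟨_, ⟨i, rfl⟩⟩ ?_
    rintro _ ⟨i', rfl⟩
    exact hi i'

theorem Nw_le (a : I → σ → ℕ) (w : σ → ℕ) (i : I) : Nw a w ≤ dot w (a i) :=
  Nat.sInf_le ⟨i, rfl⟩

theorem mem_face_iff [Nonempty I] (a : I → σ → ℕ) (w : σ → ℕ) (i : I) :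
    i ∈ face a w ↔ dot w (a i) = Nw a w := by
  constructor
  · exact fun h => (Nw_eq h).symm
  · intro h i'
    rw [h]
    exact Nw_le a w i'

theorem lt_of_not_mem_face [Nonempty I] {a : I → σ → ℕ} {w : σ → ℕ} {i : I} (hi : i ∉ face a w) :
    Nw a w < dot w (a i) :=
  lt_of_le_of_ne (Nw_le a w i) fun h => hi ((mem_face_iff a w i).2 h.symm)

/-- a face of a sum -/
theorem face_add {a : I → σ → ℕ} {u v : σ → ℕ} (h : (face a u ∩ face a v).Nonempty) :
    face a (u + v) = face a u ∩ face a v ∧ Nw a (u + v) = Nw a u + Nw a v := by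
  obtain ⟨i0, h1, h2⟩ := h
  have hI : Nonempty I := ⟨i0⟩
  have h3 : i0 ∈ face a (u + v) := by
    intro i'
    rw [dot_add, dot_add]
    exact add_le_add (h1 i') (h2 i')
  have hN : Nw a (u + v) = Nw a u + Nw a v := by
    rw [Nw_eq h3, Nw_eq h1, Nw_eq h2, dot_add]
  refine ⟨?_, hN⟩
  ext i
  rw [Set.mem_inter_iff, mem_face_iff, mem_face_iff, mem_face_iff, hN, dot_add]
  have := Nw_le a u i
  have := Nw_le a v i
  constructor
  · intro h
    constructor <;> omega
  · rintro ⟨h, h'⟩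
    omega

/-- adding a weight whose face is bigger -/
theorem face_add_of_subset [Nonempty I] {a : I → σ → ℕ} {u v : σ → ℕ} (h : face a u ⊆ face a v) :
    face a (u + v) = face a u ∧ Nw a (u + v) = Nw a u + Nw a v := by
  obtain ⟨i, hi⟩ := exists_mem_face a u
  obtain ⟨h1, h2⟩ := face_add (a := a) (u := u) (v := v) ⟨i, hi, h hi⟩
  exact ⟨by rw [h1]; exact Set.inter_eq_left.2 h, h2⟩

/-- weights supported on variables which do not occur on the face -/
theorem face_free {a : I → σ → ℕ} {u p : σ → ℕ} (hp : ∀ j, p j ≠ 0 → ∀ i ∈ face a u, a i j = 0)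
    {i : I} (hi : i ∈ face a u) : dot p (a i) = 0 := by
  unfold dot
  refine Finset.sum_eq_zero fun j _ => ?_
  rcases Nat.eq_zero_or_pos (p j) with h | h
  · simp [h]
  · simp [hp j h.ne' i hi]

theorem face_free_subset [Nonempty I] {a : I → σ → ℕ} {u p : σ → ℕ}
    (hp : ∀ j, p j ≠ 0 → ∀ i ∈ face a u, a i j = 0) : face a u ⊆ face a p ∧ Nw a p = 0 := by
  have h0 : ∀ i ∈ face a u, i ∈ face a p := by
    intro i hi i'
    rw [face_free hp hi]
    exact Nat.zero_le _
  obtain ⟨i, hi⟩ := exists_mem_face a u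
  exact ⟨h0, by rw [Nw_eq (h0 i hi), face_free hp hi]⟩

theorem face_smul_of_subset [Nonempty I] {a : I → σ → ℕ} {u w : σ → ℕ} (h : face a u ⊆ face a w)
    (m : ℕ) : face a u ⊆ face a (fun j => m * w j) ∧ Nw a (fun j => m * w j) = m * Nw a w := by
  have h0 : ∀ i ∈ face a w, i ∈ face a (fun j => m * w j) := by
    intro i hi i'
    rw [dot_smul, dot_smul]
    exact Nat.mul_le_mul_left m (hi i')
  obtain ⟨i, hi⟩ := exists_mem_face a w
  exact ⟨fun i hi => h0 i (h hi), by rw [Nw_eq (h0 i hi), Nw_eq hi, dot_smul]⟩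

theorem face_sum_of_subset [Nonempty I] {a : I → σ → ℕ} {u : σ → ℕ} {S : Type} [Fintype S]
    (w : S → σ → ℕ) (h : ∀ s, face a u ⊆ face a (w s)) (m : S → ℕ) :
    face a u ⊆ face a (fun j => ∑ s, m s * w s j) ∧
      Nw a (fun j => ∑ s, m s * w s j) = ∑ s, m s * Nw a (w s) := by
  have h0 : ∀ i ∈ face a u, i ∈ face a (fun j => ∑ s, m s * w s j) := by
    intro i hi i'
    rw [dot_sum, dot_sum]
    exact Finset.sum_le_sum fun s _ => Nat.mul_le_mul_left _ (h s hi i')
  obtain ⟨i, hi⟩ := exists_mem_face a u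
  refine ⟨h0, ?_⟩
  rw [Nw_eq (h0 i hi), dot_sum]
  exact Finset.sum_congr rfl fun s _ => by rw [Nw_eq (h s hi)]

/-- the face is constant on a box and `N` is additive -/
theorem NBox.face_pt [Nonempty I] {a : I → σ → ℕ} {b : NBox σ} (hb : b.Adm a) (m : Fin b.r → ℕ)
    {p : σ → ℕ} (hp : ∀ j, j ∉ b.F → p j = 0) :
    face a (b.pt m + p) = face a b.u ∧
      Nw a (b.pt m + p) = Nw a b.u + ∑ s, m s * Nw a (b.w s) := by
  have h1 := face_sum_of_subset (a := a) (u := b.u) b.w (fun s => (hb.1 s).2.2) m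
  have e1 : b.pt m = b.u + fun j => ∑ s, m s * b.w s j := rfl
  obtain ⟨h2, h3⟩ := face_add_of_subset h1.1
  rw [← e1] at h2 h3
  have hp' : ∀ j, p j ≠ 0 → ∀ i ∈ face a (b.pt m), a i j = 0 := by
    intro j hj i hi
    rw [h2] at hi
    have hjF : j ∈ b.F := by
      by_contra hj'
      exact hj (hp j hj')
    exact hb.2 j hjF i hi
  obtain ⟨h4, h5⟩ := face_free_subset hp'
  obtain ⟨h6, h7⟩ := face_add_of_subset h4
  exact ⟨by rw [h6, h2], by rw [h7, h3, h5, h1.2, add_zero]⟩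

theorem NBox.face_pt' [Nonempty I] {a : I → σ → ℕ} {b : NBox σ} (hb : b.Adm a) (m : Fin b.r → ℕ) :
    face a (b.pt m) = face a b.u ∧ Nw a (b.pt m) = Nw a b.u + ∑ s, m s * Nw a (b.w s) := by
  have h := NBox.face_pt hb m (p := 0) (fun _ _ => rfl)
  rwa [add_zero] at h

theorem mem_Ker {a : I → σ → ℕ} {κ : I → ℤ} :
    κ ∈ Ker a ↔ ∑ i, κ i = 0 ∧ ∀ l, ∑ i, κ i * (a i l : ℤ) = 0 := Iff.rfl

end Weights

end Pool.Newt
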