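import Pool.Agent.H75.Mono.ZE

/-!
# Project NEWTON (MP_432c1b_ag): definitions

Plan: /team-store/NEWTON_PLAN.md. Throughout `f = ∑_i c_i x^(a_i)`, `a : I → σ → ℕ`.

* `dot w v`: the scalar product; `Nw a w`: the minimum `N(w)` of `w · a_i`; `face a w`: the indices
  with `w · a_i = N(w)`;
* `Rigid a w`: facet normals; `Ker a`: the affine relations; `Good a w`: good weights;
* `poly a c`: the polynomial; `fpoly a c w`: its face polynomial; `Gen a c`, `Genk a c`: the genericity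
  condition in `ℂ` and in `k`; `Ndg a c`: nondegeneracy;
* b-side: `multi`, `desc`, `xsh`, `CofId`, `Eg`, `dd`, `Rec`, `Pg`, `Zs`, `lf`;
* zeta side: `NBox`, `Decomp`, `Cyl`.
-/

set_option autoImplicit false

namespace Pool.Newt

open MvPolynomial Pool.Agent.H39.MonoR Pool.Agent.H75.Mono

section Weights

variable {σ I : Type} [Fintype σ] [Fintype I]

/-- the scalar product of a weight and an exponent -/
def dot (w v : σ → ℕ) : ℕ := ∑ j, w j * v j

/-- `N(w)`, the minimum of `w · a_i` -/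
noncomputable def Nw (a : I → σ → ℕ) (w : σ → ℕ) : ℕ := sInf (Set.range fun i => dot w (a i))

/-- the indices of the exponents on the face of the Newton polyhedron selected by `w` -/
def face (a : I → σ → ℕ) (w : σ → ℕ) : Set I := {i | ∀ i', dot w (a i) ≤ dot w (a i')}

/-- `w` is rigid (the normal vector of a facet): the columns `(a_il)`, `i` in the face, `w_l ≠ 0`,
are linearly independent -/
def Rigid (a : I → σ → ℕ) (w : σ → ℕ) : Prop :=
  LinearIndependent ℚ (fun (l : {l // w l ≠ 0}) (i : face a w) => (a i l : ℚ))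

/-- the affine relations between the exponents -/
def Ker (a : I → σ → ℕ) : AddSubgroup (I → ℤ) where
  carrier := {κ | ∑ i, κ i = 0 ∧ ∀ l, ∑ i, κ i * (a i l : ℤ) = 0}
  zero_mem' := by simp
  add_mem' := by
    rintro x y ⟨hx, hx'⟩ ⟨hy, hy'⟩
    refine ⟨by simp [Finset.sum_add_distrib, hx, hy], fun l => ?_⟩
    simp [add_mul, Finset.sum_add_distrib, hx', hy']
  neg_mem' := by
    rintro x ⟨hx, hx'⟩
    refine ⟨by simp [hx], fun l => ?_⟩
    simp [hx']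

/-- good weights: there is a set `s` of indices on the face such that the exponents `a_i`, `i ∈ s`,
are affinely independent, the columns `(a_il)`, `i ∈ s`, `w_l ≠ 0`, are linearly independent, and
none of them is a unit vector -/
def Good (a : I → σ → ℕ) (w : σ → ℕ) : Prop :=
  ∃ s : Finset I, (∀ i ∈ s, i ∈ face a w) ∧
    (∀ κ ∈ Ker a, (∀ i, i ∉ s → κ i = 0) → κ = 0) ∧
    LinearIndependent ℚ (fun (l : {l // w l ≠ 0}) (i : s) => (a i l : ℚ)) ∧
    ∀ l, w l ≠ 0 → ∀ i ∈ s, ¬ (a i l = 1 ∧ ∀ i' ∈ s, i' ≠ i → a i' l = 0)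

end Weights

section Poly

variable {k : Type} [Field k] {σ I : Type} [Fintype σ] [Fintype I]

/-- the polynomial `∑_i c_i x^(a_i)` -/
noncomputable def poly (a : I → σ → ℕ) (c : I → k) : MvPolynomial σ k :=
  ∑ i, monomial (Finsupp.equivFunOnFinite.symm (a i)) (c i)

open Classical in
/-- the face polynomial `∑_{i in the face} c_i x^(a_i)` -/
noncomputable def fpoly (a : I → σ → ℕ) (c : I → k) (w : σ → ℕ) : MvPolynomial σ k :=
  ∑ i, if i ∈ face a w then monomial (Finsupp.equivFunOnFinite.symm (a i)) (c i) else 0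

/-- the numbers `c^κ`, `κ ∈ Ker a`, are linearly independent over `ℚ` -/
def Gen [Algebra k ℂ] (a : I → σ → ℕ) (c : I → k) : Prop :=
  LinearIndependent ℚ (fun κ : Ker a => ∏ i, (algebraMap k ℂ (c i)) ^ ((κ : I → ℤ) i))

/-- the same condition in `k` -/
def Genk [CharZero k] (a : I → σ → ℕ) (c : I → k) : Prop :=
  LinearIndependent ℚ (fun κ : Ker a => ∏ i, (c i) ^ ((κ : I → ℤ) i))

/-- nondegeneracy: the hypersurface of every face polynomial in the torus is smooth -/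
def Ndg [Algebra k ℂ] (a : I → σ → ℕ) (c : I → k) : Prop :=
  ∀ (u : σ → ℕ) (z : σ → ℂ), (∀ j, z j ≠ 0) → aeval z (fpoly a c u) = 0 →
    ∃ l, aeval z (pderiv l (fpoly a c u)) ≠ 0

end Poly

section BSide

variable {σ I : Type} [Fintype σ] [Fintype I]

open Classical in
/-- the multinomial coefficient `|t|! / ∏ t_i!`, zero unless all `t_i ≥ 0` -/
noncomputable def multi (t : I → ℤ) : ℚ :=
  if ∀ i, 0 ≤ t i then (Nat.multinomial Finset.univ (fun i => (t i).toNat) : ℚ) else 0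

/-- `∏_l ∏_{0 ≤ j < -γ_l} (X_l - j)` -/
noncomputable def desc (k : Type) [Field k] (γ : σ → ℤ) : MvPolynomial σ k :=
  ∏ l, ∏ j ∈ Finset.range (-γ l).toNat, (X l - C (j : k))

/-- the monomial `x^(v+γ)` -/
noncomputable def xsh (k : Type) [Field k] (v : σ → ℕ) (γ : σ → ℤ) : MvPolynomial σ k :=
  monomial (Finsupp.equivFunOnFinite.symm fun l => ((v l : ℤ) + γ l).toNat) 1

open Classical in
/-- the coefficients of `x^e` in `P(n) f^(n+1) = b(n) f^n`, where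
`P(n) x^v = ∑_{γ ∈ Γ} desc γ (v) r_γ(n, v) x^(v+γ)` -/
def CofId {k : Type} [Field k] (a : I → σ → ℕ) (c : I → k) (b : Polynomial k)
    (Γ : Finset (σ → ℤ)) (r : (σ → ℤ) → MvPolynomial (Option σ) k) : Prop :=
  ∀ (n : ℕ) (e : σ → ℕ),
    b.eval (n : k) * ∑ t ∈ (Finset.piAntidiag (Finset.univ : Finset I) n).filter
        (fun t => ∀ l, ∑ i, (t i : ℤ) * (a i l : ℤ) = e l),
        (Nat.multinomial Finset.univ t : k) * ∏ i, c i ^ t i =
    ∑ γ ∈ Γ, ∑ t ∈ (Finset.piAntidiag (Finset.univ : Finset I) (n + 1)).filter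
        (fun t => ∀ l, (∑ i, (t i : ℤ) * (a i l : ℤ)) + γ l = e l),
        (Nat.multinomial Finset.univ t : k) * (∏ i, c i ^ t i) *
          (eval (fun l => ∑ i, (t i : k) * (a i l : k)) (desc k γ) *
            eval (fun o => Option.elim o (n : k) (fun l => ∑ i, (t i : k) * (a i l : k))) (r γ))

/-- `∑_{κ ∈ Ker} multi (y + κ) [κ]` in the group ring -/
noncomputable def Eg (a : I → σ → ℕ) (y : I → ℤ) : AddMonoidAlgebra ℚ (Ker a) :=
  ∑ᶠ κ : Ker a, AddMonoidAlgebra.single κ (multi (y + (κ : I → ℤ)))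

/-- `∏_l ∏_{1 ≤ j ≤ (A^T δ)_l} (∑_i a_il t_i + j)` -/
noncomputable def dd (a : I → σ → ℕ) (δ : I → ℤ) : MvPolynomial I ℚ :=
  ∏ l, ∏ j ∈ Finset.range (∑ i, δ i * (a i l : ℤ)).toNat,
    ((∑ i, C (a i l : ℚ) * X i) + C ((j : ℚ) + 1))

/-- the recurrence in the group ring of `Ker a` -/
def Rcg (a : I → σ → ℕ) (α : ℚ) (K : ℕ) : Prop :=
  ∃ (q : AddMonoidAlgebra ℚ (Ker a)) (H : MvPolynomial I (AddMonoidAlgebra ℚ (Ker a)))
    (Dd : Finset (I → ℤ)) (Q : (I → ℤ) → MvPolynomial I (AddMonoidAlgebra ℚ (Ker a))),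
    q ≠ 0 ∧ (∀ δ ∈ Dd, ∑ i, δ i = 1) ∧ ∀ t : I → ℕ,
      (q + algebraMap ℚ (AddMonoidAlgebra ℚ (Ker a)) (((∑ i, (t i : ℚ)) - α) ^ K) *
        eval (fun i => ((t i : ℕ) : AddMonoidAlgebra ℚ (Ker a))) H) * Eg a (fun i => (t i : ℤ)) =
      ∑ δ ∈ Dd, algebraMap ℚ (AddMonoidAlgebra ℚ (Ker a)) (eval (fun i => (t i : ℚ)) (dd a δ)) *
        eval (fun i => ((t i : ℕ) : AddMonoidAlgebra ℚ (Ker a))) (Q δ) *
          Eg a (fun i => (t i : ℤ) + δ i)

/-- the scalar recurrence of the multinomial coefficients -/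
structure Rec (a : I → σ → ℕ) (s : Finset I) (α : ℚ) (K : ℕ) where
  φ : I → ℕ
  φ0 : ∀ i ∈ s, φ i = 0
  φ1 : ∀ i, i ∉ s → 0 < φ i
  Dk : Finset (I → ℤ)
  hDk : ∀ κ ∈ Dk, κ ∈ Ker a
  r : (I → ℤ) → ℚ
  G : (I → ℤ) → MvPolynomial I ℚ
  zm : (0 : I → ℤ) ∈ Dk
  r0 : r 0 ≠ 0
  hr : ∀ κ ∈ Dk, κ ≠ 0 → r κ ≠ 0 → ∑ i, (φ i : ℤ) * κ i < 0
  Dd : Finset (I → ℤ)
  hDd : ∀ δ ∈ Dd, ∑ i, δ i = 1
  q : (I → ℤ) → MvPolynomial I ℚ
  rc : ∀ t : I → ℕ,
    ∑ κ ∈ Dk, (r κ + ((∑ i, (t i : ℚ)) - α) ^ K * eval (fun i => (t i : ℚ)) (G κ)) *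
      multi (fun i => (t i : ℤ) + κ i) =
    ∑ δ ∈ Dd, eval (fun i => (t i : ℚ)) (dd a δ * q δ) * multi (fun i => (t i : ℤ) + δ i)

/-- `∏_i ∏_{δ_i < j ≤ J} (X_i + j)` -/
noncomputable def Pg (J : ℕ) (δ : I → ℤ) : MvPolynomial I ℚ :=
  ∏ i, ∏ j ∈ Finset.Ioc (δ i) (J : ℤ), (X i + C (j : ℚ))

/-- the polynomial form of the recurrence -/
def Rec.Poly {a : I → σ → ℕ} {s : Finset I} {α : ℚ} {K : ℕ} (R : Rec a s α K) (J : ℕ) : Prop :=
  ∑ κ ∈ R.Dk, (C (R.r κ) + ((∑ i, X i) - C α) ^ K * R.G κ) * Pg J κ =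
    ∑ δ ∈ R.Dd, ((∑ i, X i) + 1) * Pg J δ * (dd a δ * R.q δ)

open Classical in
/-- the indices `i` such that `-t0_i` is an integer greater than `δ_i` -/
noncomputable def Zs (t0 : I → ℚ) (δ : I → ℤ) : Finset I :=
  Finset.univ.filter fun i => ∃ m : ℤ, t0 i = -m ∧ δ i < m

/-- the linear form of a vector -/
noncomputable def lf (β : I → ℤ) : MvPolynomial I ℚ := ∑ i, C (β i : ℚ) * X i

end BSide

section ZetaSide

variable {σ I : Type} [Fintype σ] [Fintype I]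

/-- the weights `u + ∑ m_s w_s + ∑_{j ∈ F} p_j e_j` -/
structure NBox (σ : Type) where
  u : σ → ℕ
  r : ℕ
  w : Fin r → σ → ℕ
  F : Finset σ

/-- `u + ∑ m_s w_s` -/
def NBox.pt (b : NBox σ) (m : Fin b.r → ℕ) : σ → ℕ := fun j => b.u j + ∑ s, m s * b.w s j

/-- admissible boxes: the `w_s` are rigid with `N(w_s) > 0`, their faces contain the face of `u`,
and the variables in `F` do not occur in the face polynomial of `u` -/
def NBox.Adm (a : I → σ → ℕ) (b : NBox σ) : Prop :=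
  (∀ s, Rigid a (b.w s) ∧ 0 < Nw a (b.w s) ∧ face a b.u ⊆ face a (b.w s)) ∧
    ∀ j ∈ b.F, ∀ i ∈ face a b.u, a i j = 0

/-- every weight is uniquely of the form `u + ∑ m_s w_s + ∑_{j ∈ F} p_j e_j`, for one of the
boxes -/
def Decomp (a : I → σ → ℕ) {nB : ℕ} (b : Fin nB → NBox σ) : Prop :=
  (∀ β, (b β).Adm a) ∧
    ∀ x : σ → ℕ, ∃! y : (Σ β : Fin nB, (Fin (b β).r → ℕ)) × (σ → ℕ),
      (∀ j, j ∉ (b y.1.1).F → y.2 j = 0) ∧ x = (b y.1.1).pt y.1.2 + y.2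

/-- the arcs with `ord φ_j ≥ u_j` for all `j` and `ord φ_j = u_j` for `j ∉ F` -/
def Cyl {M : ℕ} (u : σ → ℕ) (F : Finset σ) : Set (σ × Fin M → ℂ) :=
  {φ | ∀ j, (∀ l, l < u j → PowerSeries.coeff l (arc φ j) = 0) ∧
    (j ∉ F → PowerSeries.coeff (u j) (arc φ j) ≠ 0)}

end ZetaSide

end Pool.Newt
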