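import Pool.Agent.H39.Newt.Stmts

/-! # Project NEWTON, module FGE: the weights with a given face are finitely generated -/

set_option autoImplicit false

namespace Pool.Newt

section FGE

variable {σ I : Type} [Fintype σ] [Fintype I] [Nonempty I]

/-- representations of multiples -/
def FGE_Rep (a : I → σ → ℕ) (u₀ : σ → ℕ) {r : ℕ} (w : Fin r → σ → ℕ) (y : σ → ℕ) : Prop :=
  ∃ (D : ℕ) (m : Fin r → ℕ) (p : σ → ℕ), 0 < D ∧ (∀ j, p j ≠ 0 → ∀ i ∈ face a u₀, a i j = 0) ∧
    ∀ j, D * y j = (∑ s, m s * w s j) + p j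

omit [Fintype I] [Nonempty I] in
theorem FGE_Rep.add {a : I → σ → ℕ} {u₀ : σ → ℕ} {r : ℕ} {w : Fin r → σ → ℕ} {y z : σ → ℕ}
    (hy : FGE_Rep a u₀ w y) (hz : FGE_Rep a u₀ w z) : FGE_Rep a u₀ w (fun j => y j + z j) := by
  obtain ⟨D, m, p, hD, hp, h⟩ := hy
  obtain ⟨D', m', p', hD', hp', h'⟩ := hz
  refine ⟨D * D', fun s => D' * m s + D * m' s, fun j => D' * p j + D * p' j,
    Nat.mul_pos hD hD', ?_, ?_⟩
  · intro j hj i hi
    by_cases h1 : p j = 0
    · by_cases h2 : p' j = 0
      · exact absurd (by simp [h1, h2]) hj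
      · exact hp' j h2 i hi
    · exact hp j h1 i hi
  · intro j
    have e1 : D * D' * (y j + z j) = D' * (D * y j) + D * (D' * z j) := by ring
    rw [e1, h j, h' j]
    simp only [add_mul, Finset.sum_add_distrib, mul_add, Finset.mul_sum]
    have e2 : ∀ x : Fin r, D' * (m x * w x j) = D' * m x * w x j := fun x => by ring
    have e3 : ∀ x : Fin r, D * (m' x * w x j) = D * m' x * w x j := fun x => by ring
    simp only [e2, e3]
    ring

omit [Fintype I] [Nonempty I] in
theorem FGE_Rep.zero (a : I → σ → ℕ) (u₀ : σ → ℕ) {r : ℕ} (w : Fin r → σ → ℕ) :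
    FGE_Rep a u₀ w (fun _ => 0) :=
  ⟨1, fun _ => 0, fun _ => 0, one_pos, fun _ h => absurd rfl h, fun _ => by simp⟩

omit [Fintype I] [Nonempty I] in
theorem FGE_Rep.smul {a : I → σ → ℕ} {u₀ : σ → ℕ} {r : ℕ} {w : Fin r → σ → ℕ} {y : σ → ℕ}
    (hy : FGE_Rep a u₀ w y) (n : ℕ) : FGE_Rep a u₀ w (fun j => n * y j) := by
  obtain ⟨D, m, p, hD, hp, h⟩ := hy
  refine ⟨D, fun s => n * m s, fun j => n * p j, hD, ?_, ?_⟩
  · intro j hj
    exact hp j fun h0 => hj (by simp [h0])
  · intro j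
    have e1 : D * (n * y j) = n * (D * y j) := by ring
    rw [e1, h j, mul_add, Finset.mul_sum]
    congr 1
    exact Finset.sum_congr rfl fun s _ => by ring

omit [Fintype I] [Nonempty I] in
theorem FGE_Rep.of_smul {a : I → σ → ℕ} {u₀ : σ → ℕ} {r : ℕ} {w : Fin r → σ → ℕ} {y : σ → ℕ}
    {n : ℕ} (hn : 0 < n) (hy : FGE_Rep a u₀ w (fun j => n * y j)) : FGE_Rep a u₀ w y := by
  obtain ⟨D, m, p, hD, hp, h⟩ := hy
  refine ⟨D * n, m, p, Nat.mul_pos hD hn, hp, fun j => ?_⟩
  rw [← h j]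
  ring

omit [Fintype I] [Nonempty I] in
theorem FGE_Rep.sum {a : I → σ → ℕ} {u₀ : σ → ℕ} {r : ℕ} {w : Fin r → σ → ℕ} {S : Type}
    (s : Finset S) (y : S → σ → ℕ) (hy : ∀ x ∈ s, FGE_Rep a u₀ w (y x)) :
    FGE_Rep a u₀ w (fun j => ∑ x ∈ s, y x j) := by
  classical
  induction s using Finset.induction_on with
  | empty => simpa using FGE_Rep.zero a u₀ w
  | insert x s hx ih =>
    simp only [Finset.sum_insert hx]
    exact (hy x (Finset.mem_insert_self _ _)).add
      (ih fun x' hx' => hy x' (Finset.mem_insert_of_mem hx'))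

omit [Fintype I] [Nonempty I] in
theorem FGE_Rep.gen (a : I → σ → ℕ) (u₀ : σ → ℕ) {r : ℕ} (w : Fin r → σ → ℕ) (s : Fin r) :
    FGE_Rep a u₀ w (w s) :=
  ⟨1, fun s' => if s' = s then 1 else 0, fun _ => 0, one_pos, fun _ h => absurd rfl h,
    fun j => by simp⟩

omit [Fintype I] [Nonempty I] in
theorem FGE_Rep.free {a : I → σ → ℕ} {u₀ : σ → ℕ} {r : ℕ} {w : Fin r → σ → ℕ} {p : σ → ℕ}
    (hp : ∀ j, p j ≠ 0 → ∀ i ∈ face a u₀, a i j = 0) : FGE_Rep a u₀ w p :=
  ⟨1, fun _ => 0, p, one_pos, hp, fun j => by simp⟩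

/-- reduction to bounded remainders -/
theorem FGE_box {a : I → σ → ℕ} {u₀ : σ → ℕ} {r : ℕ} {w : Fin r → σ → ℕ}
    (hw : ∀ s, face a u₀ ⊆ face a (w s)) {y : σ → ℕ} (hy : FGE_Rep a u₀ w y) :
    ∃ (z : σ → ℕ) (m : Fin r → ℕ) (p : σ → ℕ), (∀ j, z j ≤ (∑ s, w s j) + 1) ∧
      face a u₀ ⊆ face a z ∧ (∀ j, p j ≠ 0 → ∀ i ∈ face a u₀, a i j = 0) ∧
      ∀ j, y j = z j + (∑ s, m s * w s j) + p j := by
  obtain ⟨D, m, p, hD, hp, h⟩ := hy
  have hle : ∀ j, (∑ s, m s / D * w s j) + p j / D ≤ y j := by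
    intro j
    refine Nat.le_of_mul_le_mul_left ?_ hD
    rw [h j, mul_add, Finset.mul_sum]
    refine add_le_add (Finset.sum_le_sum fun s _ => ?_) (Nat.mul_div_le _ _)
    rw [← mul_assoc]
    exact Nat.mul_le_mul_right _ (Nat.mul_div_le _ _)
  have hz : ∀ j, D * (y j - ((∑ s, m s / D * w s j) + p j / D)) =
      (∑ s, m s % D * w s j) + p j % D := by
    intro j
    have h1 : D * ((∑ s, m s / D * w s j) + p j / D) + ((∑ s, m s % D * w s j) + p j % D) =
        D * y j := by
      rw [h j, mul_add, Finset.mul_sum]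
      have e : ∀ s, m s * w s j = D * (m s / D * w s j) + m s % D * w s j := by
        intro s
        conv_lhs => rw [← Nat.div_add_mod (m s) D]
        ring
      simp_rw [e]
      rw [Finset.sum_add_distrib]
      have := Nat.div_add_mod (p j) D
      omega
    rw [Nat.mul_sub]
    omega
  refine ⟨fun j => y j - ((∑ s, m s / D * w s j) + p j / D), fun s => m s / D,
    fun j => p j / D, ?_, ?_, ?_, ?_⟩
  · intro j
    refine Nat.le_of_mul_le_mul_left ?_ hD
    rw [hz j, mul_add, Finset.mul_sum]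
    refine add_le_add (Finset.sum_le_sum fun s _ => ?_) ?_
    · exact Nat.mul_le_mul_right _ (Nat.mod_lt _ hD).le
    · rw [mul_one]
      exact (Nat.mod_lt _ hD).le
  · -- the face
    have h1 := (face_sum_of_subset (a := a) (u := u₀) w hw (fun s => m s % D)).1
    have hp' : ∀ j, p j % D ≠ 0 → ∀ i ∈ face a u₀, a i j = 0 := by
      intro j hj
      refine hp j fun h0 => hj (by simp [h0])
    have h2 : face a u₀ ⊆ face a (fun j => p j % D) := (face_free_subset hp').1
    intro i hi i'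
    refine Nat.le_of_mul_le_mul_left ?_ hD
    rw [← dot_smul, ← dot_smul]
    have e : (fun j => D * (y j - ((∑ s, m s / D * w s j) + p j / D))) =
        (fun j => ∑ s, m s % D * w s j) + (fun j => p j % D) := by
      funext j
      exact hz j
    rw [e, dot_add, dot_add]
    exact add_le_add (h1 hi i') (h2 hi i')
  · intro j hj
    refine hp j fun h0 => hj (by simp [h0])
  · intro j
    have := hle j
    show y j = (y j - ((∑ s, m s / D * w s j) + p j / D)) + (∑ s, m s / D * w s j) + p j / D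
    omega

end FGE

open Classical in
theorem sFge (hExt : SExt) (hRay : SRay) : SFge := by
  intro σ I _ _ _ a u₀
  obtain ⟨R, hR, hR'⟩ := hRay σ I a
  set R' : Finset (σ → ℕ) := R.filter (fun w => face a u₀ ⊆ face a w) with hR'def
  set e := R'.equivFin with he
  let w : Fin R'.card → σ → ℕ := fun s => (e.symm s : σ → ℕ)
  have hwR : ∀ s, w s ∈ R' := fun s => (e.symm s).2
  have hwf : ∀ s, face a u₀ ⊆ face a (w s) := fun s => (Finset.mem_filter.1 (hwR s)).2
  have hgen : ∀ y, face a u₀ ⊆ face a y → FGE_Rep a u₀ w y := by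
    intro y hy
    obtain ⟨D, r, w1, m, p, hD, h1, h2, h3⟩ := hExt σ I a y
    refine FGE_Rep.of_smul hD ?_
    have e1 : (fun j => D * y j) = fun j => (∑ s ∈ Finset.univ, m s * w1 s j) + p j := by
      funext j
      exact h3 j
    rw [e1]
    refine FGE_Rep.add (y := fun j => ∑ s ∈ Finset.univ, m s * w1 s j) (FGE_Rep.sum _ _ ?_) ?_
    · intro s _
      refine FGE_Rep.smul ?_ (m s)
      obtain ⟨w', hw', hf, p', q', hp', hq', h4⟩ := hR' (w1 s) (h1 s).1 (h1 s).2.1
      have hw'' : w' ∈ R' := by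
        rw [hR'def, Finset.mem_filter]
        refine ⟨hw', ?_⟩
        rw [hf]
        exact hy.trans (h1 s).2.2
      refine FGE_Rep.of_smul hp' ?_
      have e2 : (fun j => p' * w1 s j) = fun j => q' * w' j := by
        funext j
        exact h4 j
      rw [e2]
      refine FGE_Rep.smul ?_ q'
      have e3 : w' = w (e ⟨w', hw''⟩) := by
        simp only [w, Equiv.symm_apply_apply]
      rw [e3]
      exact FGE_Rep.gen _ _ _ _
    · exact FGE_Rep.free fun j hj i hi => h2 j hj i (hy hi)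
  -- Dickson
  let f : (σ → ℕ) → (σ ⊕ I → ℕ) := fun x => Sum.elim x (fun k => dot x (a k) - Nw a x)
  let E : Set (σ ⊕ I → ℕ) := f '' {x | face a x = face a u₀}
  have hfin : {x | Minimal (· ∈ E) x}.Finite := by
    have hanti : IsAntichain (· ≤ ·) {x | Minimal (· ∈ E) x} := setOfPred_minimal_antichain _
    refine hanti.finite_of_partiallyWellOrderedOn ?_
    exact Set.isPWO_of_wellQuasiOrderedLE _
  have hch : ∀ y ∈ E, ∃ x, face a x = face a u₀ ∧ f x = y := fun y hy => by
    obtain ⟨x, hx, hxy⟩ := hy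
    exact ⟨x, hx, hxy⟩
  choose! g hg using hch
  let U0 : Finset (σ → ℕ) := hfin.toFinset.image g
  have hU0 : ∀ x, face a x = face a u₀ → ∃ u ∈ U0, face a u = face a u₀ ∧ f u ≤ f x := by
    intro x hx
    obtain ⟨y, hy1, hy2⟩ := exists_minimal_le_of_wellFoundedLT (· ∈ E) (f x) ⟨x, hx, rfl⟩
    refine ⟨g y, ?_, (hg y hy2.1).1, ?_⟩
    · simp only [U0, Finset.mem_image, Set.Finite.mem_toFinset, Set.mem_ofPred_eq]
      exact ⟨y, hy2, rfl⟩
    · rw [(hg y hy2.1).2]
      exact hy1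
  let Bx : Finset (σ → ℕ) := Fintype.piFinset fun j => Finset.range ((∑ s, w s j) + 2)
  refine ⟨((U0 ×ˢ Bx).image fun x => x.1 + x.2).filter fun u => face a u = face a u₀,
    R'.card, w, ?_, ?_, ?_⟩
  · intro s
    have h1 := hR _ (Finset.mem_filter.1 (hwR s)).1
    exact ⟨h1.1, h1.2, hwf s⟩
  · intro u hu
    exact (Finset.mem_filter.1 hu).2
  · intro x hx
    obtain ⟨u, hu, hu1, hu2⟩ := hU0 x hx
    have hle : ∀ j, u j ≤ x j := fun j => hu2 (Sum.inl j)
    have hle' : ∀ k, dot u (a k) - Nw a u ≤ dot x (a k) - Nw a x := fun k => hu2 (Sum.inr k)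
    -- the difference
    let y : σ → ℕ := fun j => x j - u j
    have hxy : x = u + y := by
      funext j
      have := hle j
      simp only [y, Pi.add_apply]
      omega
    have hy : face a u₀ ⊆ face a y := by
      intro i hi i'
      have h1 : dot u (a i) = Nw a u := (mem_face_iff a u i).1 (hu1 ▸ hi)
      have h2 : dot x (a i) = Nw a x := (mem_face_iff a x i).1 (hx ▸ hi)
      have h3 := hle' i'
      have h4 := Nw_le a u i'
      have h5 := Nw_le a x i'
      have h6 : dot x (a i) = dot u (a i) + dot y (a i) := by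
        conv_lhs => rw [hxy]
        exact dot_add _ _ _
      have h7 : dot x (a i') = dot u (a i') + dot y (a i') := by
        conv_lhs => rw [hxy]
        exact dot_add _ _ _
      omega
    obtain ⟨z, m, p, hz1, hz2, hp, hz3⟩ := FGE_box hwf (hgen y hy)
    refine ⟨u + z, ?_, m, p, hp, ?_⟩
    · rw [Finset.mem_filter, Finset.mem_image]
      refine ⟨⟨(u, z), ?_, rfl⟩, ?_⟩
      · rw [Finset.mem_product]
        refine ⟨hu, ?_⟩
        simp only [Bx, Fintype.mem_piFinset, Finset.mem_range]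
        intro j
        have := hz1 j
        omega
      · rw [(face_add_of_subset (a := a) (u := u) (v := z) (by rw [hu1]; exact hz2)).1, hu1]
    · intro j
      have h1 := hz3 j
      have h2 := hle j
      simp only [y] at h1
      simp only [Pi.add_apply]
      omega

end Pool.Newt
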