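import Pool.Agent.H39.Newt.HandIn

/-! # Project NEWTON: cases of the genericity condition -/

set_option autoImplicit false

namespace Pool.Newt.HI

open MvPolynomial

variable {k : Subfield ℂ} {n : ℕ}

theorem generic_of_affineIndependent {f : MvPolynomial (Fin n) k}
    (h : AffineIndependent ℚ (fun (m : f.support) (l : Fin n) => (m.1 l : ℚ))) : Generic f := by
  classical
  unfold Generic
  rw [affineIndependent_iff] at h
  have hz : ∀ κ : {κ : f.support → ℤ // ∑ m, κ m = 0 ∧ ∀ l, ∑ m, κ m * ((m.1 l : ℕ) : ℤ) = 0},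
      κ.1 = 0 := by
    rintro ⟨κ, h1, h2⟩
    have h3 := h Finset.univ (fun m => (κ m : ℚ)) (by exact_mod_cast h1) (by
      funext l
      rw [Finset.sum_apply]
      simp only [Pi.smul_apply, smul_eq_mul, Pi.zero_apply]
      exact_mod_cast h2 l)
    funext m
    have h4 : (κ m : ℚ) = 0 := h3 m (Finset.mem_univ _)
    exact_mod_cast h4
  have : Subsingleton {κ : f.support → ℤ // ∑ m, κ m = 0 ∧
      ∀ l, ∑ m, κ m * ((m.1 l : ℕ) : ℤ) = 0} :=
    ⟨fun x y => Subtype.ext ((hz x).trans (hz y).symm)⟩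
  rw [linearIndependent_subsingleton_index_iff]
  intro κ
  rw [Finset.prod_ne_zero_iff]
  intro m _
  rw [hz κ]
  simp

theorem generic_of_algebraicIndependent {f : MvPolynomial (Fin n) k}
    (h : AlgebraicIndependent ℚ (fun m : f.support => ((f.coeff m.1 : k) : ℂ))) : Generic f := by
  classical
  unfold Generic
  set c : f.support → ℂ := fun m => ((f.coeff m.1 : k) : ℂ) with hc
  have hc0 : ∀ m, c m ≠ 0 := fun m => h.ne_zero m
  rw [linearIndependent_iff']
  intro s g hg κ hκ
  -- shift all exponents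
  let e : f.support → ℕ := fun m => ∑ κ ∈ s, (κ.1 m).natAbs
  have he : ∀ κ ∈ s, ∀ m, 0 ≤ κ.1 m + e m := by
    intro κ hκ m
    have h1 : (κ.1 m).natAbs ≤ e m :=
      Finset.single_le_sum (f := fun κ => (κ.1 m).natAbs) (fun _ _ => Nat.zero_le _) hκ
    omega
  let v : {κ : f.support → ℤ // ∑ m, κ m = 0 ∧ ∀ l, ∑ m, κ m * ((m.1 l : ℕ) : ℤ) = 0} →
      (f.support →₀ ℕ) := fun κ => Finsupp.equivFunOnFinite.symm fun m => (κ.1 m + e m).toNat
  let p : MvPolynomial f.support ℚ := ∑ κ ∈ s, monomial (v κ) (g κ)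
  have hp : aeval c p = 0 := by
    have h1 : ∀ κ ∈ s, aeval c (monomial (v κ) (g κ)) =
        (∏ m, c m ^ e m) * (g κ • ∏ m, c m ^ κ.1 m) := by
      intro κ hκ
      rw [aeval_monomial, Algebra.smul_def]
      have h2 : (v κ).prod (fun i k => c i ^ k) = (∏ m, c m ^ e m) * ∏ m, c m ^ κ.1 m := by
        rw [Finsupp.prod_fintype _ _ (fun i => pow_zero _), ← Finset.prod_mul_distrib]
        refine Finset.prod_congr rfl fun m _ => ?_
        have h3 : (((κ.1 m + e m).toNat : ℕ) : ℤ) = κ.1 m + e m := Int.toNat_of_nonneg (he κ hκ m)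
        show c m ^ (κ.1 m + e m).toNat = _
        rw [← zpow_natCast, h3, zpow_add₀ (hc0 m), zpow_natCast, mul_comm]
      rw [h2]
      ring
    rw [map_sum, Finset.sum_congr rfl h1, ← Finset.mul_sum, hg, mul_zero]
  have hp0 : p = 0 := by
    have := (injective_iff_map_eq_zero _).1 h p hp
    exact this
  have hv : ∀ κ ∈ s, ∀ κ' ∈ s, v κ = v κ' → κ = κ' := by
    intro κ hκ κ' hκ' h1
    apply Subtype.ext
    funext m
    have h2 : (κ.1 m + e m).toNat = (κ'.1 m + e m).toNat := DFunLike.congr_fun h1 m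
    have h3 := he κ hκ m
    have h4 := he κ' hκ' m
    omega
  have h5 : coeff (v κ) p = g κ := by
    rw [coeff_sum, Finset.sum_eq_single κ]
    · rw [coeff_monomial, if_pos rfl]
    · intro κ' hκ' hne
      rw [coeff_monomial, if_neg]
      exact fun h1 => hne (hv κ' hκ' κ hκ h1)
    · exact fun h1 => absurd hκ h1
  rw [← h5, hp0, coeff_zero]

end Pool.Newt.HI
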