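import Pool.Agent.H39.Newt.Stmts
set_option autoImplicit false
namespace Pool.Newt

theorem sKru : SKru := by
  intro R _ _ J m a h
  have h1 : (Ideal.Quotient.mk J a : R ⧸ J) ∈ (⨅ i : ℕ, m ^ i • ⊤ : Submodule R (R ⧸ J)) := by
    rw [Submodule.mem_iInf]
    intro i
    obtain ⟨x, hx, y, hy, hxy⟩ := Submodule.mem_sup.1 (h i)
    have h2 : (Ideal.Quotient.mk J a : R ⧸ J) = y • (1 : R ⧸ J) := by
      rw [← hxy, map_add, Ideal.Quotient.eq_zero_iff_mem.2 hx, zero_add]
      rw [Algebra.smul_def, mul_one]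
      rfl
    rw [h2]
    exact Submodule.smul_mem_smul hy trivial
  obtain ⟨r, hr⟩ := (Ideal.mem_iInf_smul_pow_eq_bot_iff m _).1 h1
  refine ⟨1 - r, ?_, ?_⟩
  · have : (1 - (r : R)) - 1 = -(r : R) := by ring
    rw [this]
    exact m.neg_mem r.2
  · have h3 : (Ideal.Quotient.mk J ((1 - (r : R)) * a) : R ⧸ J) = 0 := by
      have h4 : (Ideal.Quotient.mk J ((r : R) * a) : R ⧸ J) = Ideal.Quotient.mk J a := by
        rw [map_mul]
        exact hr
      rw [sub_mul, one_mul, map_sub, h4, sub_self]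
    exact Ideal.Quotient.eq_zero_iff_mem.1 h3

end Pool.Newt
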