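import Pool.Agent.H33.Newt.WEY
import Pool.Agent.H82.Newt.COF
import Pool.Agent.H82.Newt.FUN
import Pool.Agent.H22.Newt.RCG
import Pool.Agent.H82.Newt.PHI
import Pool.Agent.H85.Newt.REC
import Pool.Agent.H82.Newt.POL
import Pool.Agent.H82.Newt.LOC
import Pool.Agent.H82.Newt.NIL
import Pool.Agent.H39.Newt.KRU
import Pool.Agent.H22.Newt.GRP
import Pool.Agent.H33.Newt.LEM
import Pool.Agent.H34.Newt.ROO
import Pool.Agent.H97.Newt.EXT
import Pool.Agent.H34.Newt.RAY
import Pool.Agent.H39.Newt.FGE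
import Pool.Agent.H7.Newt.DWN
import Pool.Agent.H2.Newt.STD
import Pool.Agent.H33.Newt.STA
import Pool.Agent.H82.Newt.DEC
import Pool.Agent.H95.Newt.ARC
import Pool.Agent.H33.Newt.VAR
import Pool.Agent.H80.Newt.HEN
import Pool.Agent.H95.Newt.CLA
import Pool.Agent.H47.Newt.CLB
import Pool.Agent.H69.Newt.GFN
import Pool.Agent.H91.Newt.ZET
import Pool.Agent.H41.Newt.NDG
import Pool.Agent.H39.Newt.GenCases

/-! # Project NEWTON: assembly -/

set_option autoImplicit false

namespace Pool.Newt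

open MvPolynomial
open Pool.Agent.H39.MonoR (Zmot RS IsRoot)

theorem fWey : SWey := sWey

theorem fCof : SCof := sCof fWey

theorem fFun : SFun := sFun

theorem fRcg : SRcg := sRcg fFun

theorem fPhi : SPhi := sPhi

theorem fRec : SRec := sRec fPhi

theorem fPol : SPol := sPol

theorem fLoc : SLoc := sLoc

theorem fNil : SNil := sNil

theorem fKru : SKru := sKru

theorem fGrp : SGrp := sGrp

theorem fLem : SLem := sLem fNil fKru fGrp

theorem fRoo : SRoo := sRoo fCof fRcg fRec fPol fLoc fLem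

theorem fExt : SExt := sExt

theorem fRay : SRay := sRay

theorem fFge : SFge := sFge fExt fRay

theorem fDwn : SDwn := sDwn

theorem fStd : SStd := STD_thm fDwn

theorem fSta : SSta := sSta fFge fStd

theorem fDec : SDec := dec

theorem fArc : SArc := s_Arc

theorem fVar : SVar := sVar

theorem fHen : SHen := sHen fArc fVar

theorem fCla : SCla := s_Cla fArc

theorem fClb : SClb := s_Clb fArc fHen

theorem fGfn : SGfn := sGfn

theorem fZet : SZet := sZet fSta fDec fCla fClb fGfn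

theorem fNdg : SNdg := sNdg

theorem newton_main {k : Subfield ℂ} {n : ℕ} (f : MvPolynomial (Fin n) k) (hf : ∃ l, pderiv l f ≠ 0)
    (hgen : HI.Generic f)
    (hB : ∀ w, HI.Rigid f w → 0 < HI.N f w → ∑ l, w l = HI.N f w ∨
      ∃ w', HI.Good f w' ∧ 0 < HI.N f w' ∧ (∑ l, w l) * HI.N f w' = (∑ l, w' l) * HI.N f w) :
    ∃ S : Finset (ℤ × ℕ), (∀ p ∈ S, p.1 < 0 ∧ 0 < p.2) ∧
      Zmot k f ∈ RS k (S : Set (ℤ × ℕ)) ∧ ∀ p ∈ S, IsRoot k f (p.1 / p.2) :=
  HI.main fRoo fZet fNdg f hf hgen hB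

end Pool.Newt
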