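import Pool.Agent.H39.Newt.Stmts
import Pool.Agent.H75.Mono.BA
import Pool.Agent.H75.Mono.BF

/-! # Project NEWTON: the final composition -/

set_option autoImplicit false

namespace Pool.Newt

open MvPolynomial Pool.Agent.H39.MonoR Pool.Agent.H75.Mono

/-- every condition in one statement -/
theorem newton_fin (hRoo : SRoo) (hZet : SZet) (hNdg : SNdg)
    (k : Type) [Field k] [Algebra k ℂ] (σ I : Type) [Fintype σ] [Fintype I] [Nonempty I]
    (a : I → σ → ℕ) (c : I → k) (hc : ∀ i, c i ≠ 0) (hgen : Gen a c)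
    (h0 : poly a c ≠ 0) (hu : ¬ IsUnit (poly a c))
    (hB : ∀ w : σ → ℕ, Rigid a w → 0 < Nw a w → ∑ l, w l = Nw a w ∨
      ∃ w' : σ → ℕ, Good a w' ∧ 0 < Nw a w' ∧ (∑ l, w l) * Nw a w' = (∑ l, w' l) * Nw a w) :
    ∃ S : Finset (ℤ × ℕ), (∀ p ∈ S, p.1 < 0 ∧ 0 < p.2) ∧
      Zmot k (poly a c) ∈ RS k (S : Set (ℤ × ℕ)) ∧ ∀ p ∈ S, IsRoot k (poly a c) (p.1 / p.2) := by
  classical
  have : CharZero k := (algebraMap k ℂ).charZero_iff (FaithfulSMul.algebraMap_injective k ℂ) |>.2 inferInstance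
  -- the genericity condition in `k`
  have hgenk : Genk a c := by
    have hinj : Function.Injective (((algebraMap k ℂ).toAddMonoidHom.toRatLinearMap) : k →ₗ[ℚ] ℂ) :=
      FaithfulSMul.algebraMap_injective k ℂ
    refine LinearIndependent.of_comp (((algebraMap k ℂ).toAddMonoidHom.toRatLinearMap) : k →ₗ[ℚ] ℂ) ?_
    have e : (⇑(((algebraMap k ℂ).toAddMonoidHom.toRatLinearMap) : k →ₗ[ℚ] ℂ) ∘
        fun κ : Ker a => ∏ i, (c i) ^ ((κ : I → ℤ) i)) =
        fun κ : Ker a => ∏ i, (algebraMap k ℂ (c i)) ^ ((κ : I → ℤ) i) := by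
      funext κ
      show algebraMap k ℂ (∏ i, (c i) ^ ((κ : I → ℤ) i)) = _
      rw [map_prod]
      exact Finset.prod_congr rfl fun i _ => map_zpow₀ _ _ _
    rw [e]
    exact hgen
  obtain ⟨R, hR, hZ⟩ := hZet k σ I a c (hNdg k σ I a c hc hgen)
  have hone : IsRoot k (poly a c) (-1) := (SR.one h0 hu).isRoot
  refine ⟨insert ((-1 : ℤ), (1 : ℕ)) (R.image fun w => (-((∑ j, w j : ℕ) : ℤ), Nw a w)), ?_, ?_, ?_⟩
  · intro p hp
    rw [Finset.mem_insert, Finset.mem_image] at hp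
    rcases hp with rfl | ⟨w, hw, rfl⟩
    · exact ⟨by norm_num, by norm_num⟩
    · refine ⟨?_, (hR w hw).2⟩
      show -((∑ j, w j : ℕ) : ℤ) < 0
      have h1 : 0 < ∑ j, w j := by
        by_contra h
        have h2 : ∀ j, w j = 0 := fun j => by
          have := Finset.single_le_sum (f := w) (fun j _ => Nat.zero_le _) (Finset.mem_univ j)
          omega
        have h3 := (hR w hw).2
        obtain ⟨i, hi⟩ := exists_mem_face a w
        rw [Nw_eq hi] at h3
        simp [dot, h2] at h3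
      omega
  · have e : ((insert ((-1 : ℤ), (1 : ℕ)) (R.image fun w => (-((∑ j, w j : ℕ) : ℤ), Nw a w)) :
        Finset (ℤ × ℕ)) : Set (ℤ × ℕ)) = ({((-1 : ℤ), (1 : ℕ))} ∪
        {p | ∃ w ∈ R, p = (-((∑ j, w j : ℕ) : ℤ), Nw a w)}) := by
      ext p
      simp only [Finset.coe_insert, Finset.coe_image, Set.mem_insert_iff, Set.mem_image,
        Finset.mem_coe, Set.mem_union, Set.mem_singleton_iff, Set.mem_ofPred_eq]
      constructor
      · rintro (h | ⟨w, hw, h⟩)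
        · exact Or.inl h
        · exact Or.inr ⟨w, hw, h.symm⟩
      · rintro (h | ⟨w, hw, h⟩)
        · exact Or.inl h
        · exact Or.inr ⟨w, hw, h.symm⟩
    rw [e]
    exact hZ
  · intro p hp
    rw [Finset.mem_insert, Finset.mem_image] at hp
    rcases hp with rfl | ⟨w, hw, rfl⟩
    · have e : (((-1 : ℤ), (1 : ℕ)).1 : ℚ) / (((-1 : ℤ), (1 : ℕ)).2 : ℚ) = -1 := by norm_num
      rw [e]
      exact hone
    · obtain ⟨h1, h2⟩ := hR w hw
      have hN : (Nw a w : ℚ) ≠ 0 := by exact_mod_cast h2.ne'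
      rcases hB w h1 h2 with h3 | ⟨w', h4, h5, h6⟩
      · have e : (((-((∑ j, w j : ℕ) : ℤ), Nw a w) : ℤ × ℕ).1 : ℚ) /
            (((-((∑ j, w j : ℕ) : ℤ), Nw a w) : ℤ × ℕ).2 : ℚ) = -1 := by
          show ((-((∑ j, w j : ℕ) : ℤ) : ℤ) : ℚ) / (Nw a w : ℚ) = -1
          rw [h3]
          push_cast
          field_simp
        rw [e]
        exact hone
      · have hN' : (Nw a w' : ℚ) ≠ 0 := by exact_mod_cast h5.ne'
        have e : (((-((∑ j, w j : ℕ) : ℤ), Nw a w) : ℤ × ℕ).1 : ℚ) /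
            (((-((∑ j, w j : ℕ) : ℤ), Nw a w) : ℤ × ℕ).2 : ℚ) =
            -((∑ l, w' l : ℕ) : ℚ) / (Nw a w' : ℚ) := by
          show ((-((∑ j, w j : ℕ) : ℤ) : ℤ) : ℚ) / (Nw a w : ℚ) = _
          have h7 : ((∑ l, w l : ℕ) : ℚ) * (Nw a w' : ℚ) = ((∑ l, w' l : ℕ) : ℚ) * (Nw a w : ℚ) := by
            exact_mod_cast h6
          rw [div_eq_div_iff hN hN']
          push_cast
          push_cast at h7
          linear_combination -h7
        rw [e]
        exact hRoo σ I k a c hc hgenk w' h4 h5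

end Pool.Newt
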