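import Pool.Agent.H39.MonoR.Defs
import Mathlib.LinearAlgebra.AffineSpace.Independent

/-! # The Newton polyhedron of a polynomial: facets, good facets, generic coefficients -/

set_option autoImplicit false

namespace Pool.Newt.HI

open MvPolynomial

variable {k : Subfield ℂ} {n : ℕ}

/-- `N(w)`: the minimum of `w · m` over the exponents `m` of `f` -/
noncomputable def N (f : MvPolynomial (Fin n) k) (w : Fin n → ℕ) : ℕ :=
  sInf {d | ∃ m ∈ f.support, d = ∑ l, w l * m l}

/-- the exponents of `f` on the face of the Newton polyhedron selected by the weight `w` -/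
def Face (f : MvPolynomial (Fin n) k) (w : Fin n → ℕ) : Set (Fin n →₀ ℕ) :=
  {m | m ∈ f.support ∧ ∑ l, w l * m l = N f w}

/-- `w` is the normal vector of a facet: the columns `(m_l)`, `m` in the face, `w_l ≠ 0`, are
linearly independent -/
def Rigid (f : MvPolynomial (Fin n) k) (w : Fin n → ℕ) : Prop :=
  LinearIndependent ℚ (fun (l : {l // w l ≠ 0}) (m : Face f w) => (m.1 l : ℚ))

/-- good weights: there is a set `s` of affinely independent exponents on the face, for which the
columns `(m_l)`, `m ∈ s`, `w_l ≠ 0`, are linearly independent and none of them is a unit vector -/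
def Good (f : MvPolynomial (Fin n) k) (w : Fin n → ℕ) : Prop :=
  ∃ s : Set (Fin n →₀ ℕ), s ⊆ Face f w ∧
    AffineIndependent ℚ (fun (m : s) (l : Fin n) => (m.1 l : ℚ)) ∧
    LinearIndependent ℚ (fun (l : {l // w l ≠ 0}) (m : s) => (m.1 l : ℚ)) ∧
    ∀ l, w l ≠ 0 → ¬ ∃ m ∈ s, m l = 1 ∧ ∀ m' ∈ s, m' ≠ m → m' l = 0

/-- the numbers `∏ c_m ^ κ_m`, where `c_m` are the coefficients of `f` and `κ` the integral affine
relations between the exponents, are linearly independent over `ℚ` -/
def Generic (f : MvPolynomial (Fin n) k) : Prop :=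
  LinearIndependent ℚ
    (fun κ : {κ : f.support → ℤ // ∑ m, κ m = 0 ∧ ∀ l, ∑ m, κ m * ((m.1 l : ℕ) : ℤ) = 0} =>
      ∏ m, ((f.coeff m.1 : k) : ℂ) ^ κ.1 m)

end Pool.Newt.HI
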