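import Pool.Agent.H39.Newt.HDefs
import Pool.Agent.H39.Newt.Fin0

/-! # Project NEWTON: the statement for a polynomial and its support -/

set_option autoImplicit false

namespace Pool.Newt.HI

open MvPolynomial
open Pool.Agent.H39.MonoR (Zmot RS IsRoot)

variable {k : Subfield ℂ} {n : ℕ}

theorem main (hRoo : SRoo) (hZet : SZet) (hNdg : SNdg)
    (f : MvPolynomial (Fin n) k) (hf : ∃ l, pderiv l f ≠ 0) (hgen : Generic f)
    (hB : ∀ w, Rigid f w → 0 < N f w → ∑ l, w l = N f w ∨
      ∃ w', Good f w' ∧ 0 < N f w' ∧ (∑ l, w l) * N f w' = (∑ l, w' l) * N f w) :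
    ∃ S : Finset (ℤ × ℕ), (∀ p ∈ S, p.1 < 0 ∧ 0 < p.2) ∧
      Zmot k f ∈ RS k (S : Set (ℤ × ℕ)) ∧ ∀ p ∈ S, IsRoot k f (p.1 / p.2) := by
  classical
  let a : f.support → Fin n → ℕ := fun m l => m.1 l
  let c : f.support → k := fun m => f.coeff m.1
  have hpoly : poly a c = f := by
    unfold poly
    have e1 : ∀ m : f.support, Finsupp.equivFunOnFinite.symm (a m) = m.1 := by
      intro m
      ext l
      rfl
    simp only [e1]
    rw [Finset.sum_coe_sort f.support (fun m => monomial m (f.coeff m))]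
    exact (f.as_sum).symm
  have h0 : f ≠ 0 := by
    rintro rfl
    obtain ⟨l, hl⟩ := hf
    exact hl (map_zero _)
  have hu : ¬ IsUnit f := by
    intro h
    rw [MvPolynomial.isUnit_iff_eq_C_of_isReduced] at h
    obtain ⟨r, -, hr⟩ := h
    obtain ⟨l, hl⟩ := hf
    exact hl (by rw [hr, pderiv_C])
  have hI : Nonempty f.support := by
    obtain ⟨m, hm⟩ := support_nonempty.2 h0
    exact ⟨⟨m, hm⟩⟩
  have hc : ∀ i, c i ≠ 0 := fun i => mem_support_iff.1 i.2
  have hdot : ∀ (w : Fin n → ℕ) (i : f.support), dot w (a i) = ∑ l, w l * i.1 l := fun w i => rfl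
  have hN : ∀ w : Fin n → ℕ, Nw a w = N f w := by
    intro w
    unfold Nw N
    congr 1
    ext d
    constructor
    · rintro ⟨i, rfl⟩
      exact ⟨i.1, i.2, rfl⟩
    · rintro ⟨m, hm, rfl⟩
      exact ⟨⟨m, hm⟩, rfl⟩
  have hface : ∀ (w : Fin n → ℕ) (i : f.support), i ∈ face a w ↔ i.1 ∈ Face f w := by
    intro w i
    rw [mem_face_iff, hN]
    exact ⟨fun h => ⟨i.2, h⟩, fun h => h.2⟩
  have hrig : ∀ w : Fin n → ℕ, Pool.Newt.Rigid a w → Rigid f w := by
    intro w h
    unfold Pool.Newt.Rigid at h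
    unfold Rigid
    let e : Face f w → face a w := fun m => ⟨⟨m.1, m.2.1⟩, (hface w ⟨m.1, m.2.1⟩).2 m.2⟩
    have he : Function.Surjective e := by
      intro i
      exact ⟨⟨i.1.1, (hface w i.1).1 i.2⟩, rfl⟩
    have := h.map' (LinearMap.funLeft ℚ ℚ e) (LinearMap.ker_eq_bot.2
      (LinearMap.funLeft_injective_of_surjective ℚ ℚ e he))
    exact this
  have hgood : ∀ w : Fin n → ℕ, Good f w → Pool.Newt.Good a w := by
    rintro w ⟨s, hs, h1, h2, h3⟩
    let s' : Finset f.support := Finset.univ.filter fun i => i.1 ∈ s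
    have hs' : ∀ i, i ∈ s' ↔ i.1 ∈ s := fun i => by simp [s']
    refine ⟨s', fun i hi => (hface w i).2 (hs ((hs' i).1 hi)), ?_, ?_, ?_⟩
    · intro κ hκ hκ0
      obtain ⟨hκ1, hκ2⟩ := mem_Ker.1 hκ
      by_contra hne
      have hsf : Finite s := by
        refine Set.Finite.subset (f.support.finite_toSet) fun m hm => (hs hm).1
      have : Fintype s := Fintype.ofFinite s
      let e : s → f.support := fun m => ⟨m.1, (hs m.2).1⟩
      have hsum : ∀ g : f.support → ℚ, (∀ i, i ∉ s' → g i = 0) → ∑ m : s, g (e m) = ∑ i, g i := by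
        intro g hg
        rw [← Finset.sum_subset (Finset.subset_univ s') (fun i _ hi => hg i hi)]
        refine Finset.sum_bij (fun m _ => e m) (fun m _ => (hs' _).2 m.2) ?_ ?_ ?_
        · intro m _ m' _ h
          exact Subtype.ext (congrArg (fun i : f.support => i.1) h)
        · intro i hi
          exact ⟨⟨i.1, (hs' i).1 hi⟩, Finset.mem_univ _, rfl⟩
        · intro m _
          rfl
      rw [affineIndependent_iff] at h1
      have h4 := h1 Finset.univ (fun m => (κ (e m) : ℚ)) (by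
          rw [hsum (fun i => (κ i : ℚ)) (fun i hi => by simp [hκ0 i hi])]
          exact_mod_cast hκ1) (by
          funext l
          rw [Finset.sum_apply]
          have := hsum (fun i => (κ i : ℚ) * (i.1 l : ℚ)) (fun i hi => by simp [hκ0 i hi])
          simp only [Pi.smul_apply, smul_eq_mul, Pi.zero_apply]
          have h5 : ∑ i, (κ i : ℚ) * ((i.1 l : ℕ) : ℚ) = 0 := by exact_mod_cast hκ2 l
          rw [h5] at this
          exact this)
      apply hne
      funext i
      by_cases hi : i ∈ s'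
      · have := h4 ⟨i.1, (hs' i).1 hi⟩ (Finset.mem_univ _)
        have h6 : (κ i : ℚ) = 0 := this
        exact_mod_cast h6
      · exact hκ0 i hi
    · let e : s' → s := fun i => ⟨i.1.1, (hs' i.1).1 i.2⟩
      have he : Function.Surjective e := by
        intro m
        exact ⟨⟨⟨m.1, (hs m.2).1⟩, (hs' _).2 m.2⟩, rfl⟩
      have := h2.map' (LinearMap.funLeft ℚ ℚ e) (LinearMap.ker_eq_bot.2
        (LinearMap.funLeft_injective_of_surjective ℚ ℚ e he))
      exact this
    · intro l hl i hi ⟨h4, h5⟩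
      refine h3 l hl ⟨i.1, (hs' i).1 hi, h4, fun m' hm' hne => ?_⟩
      exact h5 ⟨m', (hs hm').1⟩ ((hs' _).2 hm') (fun h => hne (congrArg (fun i : f.support => i.1) h))
  have hgen' : Gen a c := hgen
  have key := newton_fin hRoo hZet hNdg k (Fin n) f.support a c hc hgen' (by rwa [hpoly])
    (by rwa [hpoly]) (by
      intro w h1 h2
      rw [hN] at h2
      rcases hB w (hrig w h1) h2 with h3 | ⟨w', h4, h5, h6⟩
      · exact Or.inl (by rw [hN]; exact h3)
      · exact Or.inr ⟨w', hgood w' h4, by rw [hN]; exact h5, by rw [hN, hN]; exact h6⟩)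
  rwa [hpoly] at key

end Pool.Newt.HI
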